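import Pool.Agent.H166R2.Kotzig.Table

set_option autoImplicit false

/-!
Colour triples on the edges of a 2-factor, given positions in the Klein four group.
-/

namespace Pool.Agent.H166R2.Kotzig

open Finset
open Pool.Agent.Helper879.ECD

variable {V : Type} [Fintype V] [DecidableEq V]

omit [Fintype V] [DecidableEq V] in
/-- a representative for every cycle of a permutation -/
lemma exists_rep (π : Equiv.Perm V) :
    ∃ rep : V → V, (∀ v, π.SameCycle (rep v) v) ∧ ∀ u v, π.SameCycle u v → rep u = rep v := by
  refine ⟨fun v => Quotient.out (Quotient.mk (Equiv.Perm.SameCycle.setoid π) v), ?_, ?_⟩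
  · intro v
    exact Quotient.exact (Quotient.out_eq (Quotient.mk (Equiv.Perm.SameCycle.setoid π) v))
  · intro u v h
    show Quotient.out (Quotient.mk (Equiv.Perm.SameCycle.setoid π) u) =
      Quotient.out (Quotient.mk (Equiv.Perm.SameCycle.setoid π) v)
    rw [Quotient.sound (s := Equiv.Perm.SameCycle.setoid π) h]

lemma exists_avoid : ∀ x y z : F2 × F2, ∃ a : F2 × F2, x + a ≠ 0 ∧ y + a ≠ 0 ∧ z + a ≠ 0 := by
  decide +kernel

lemma f22_add_self (a : F2 × F2) : a + a = 0 := by
  ext <;> exact f2_add_self _

/-- a potential with prescribed increments outside the representatives -/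
lemma exists_tau (π : Equiv.Perm V) (rep : V → V) (hrep : ∀ v, π.SameCycle (rep v) v)
    (hrep2 : ∀ u v, π.SameCycle u v → rep u = rep v) (δ : V → F2) :
    ∃ τ : V → F2, ∀ v, v ≠ rep v → τ v + τ (π.symm v) = δ v := by
  classical
  let Y : V → F2 := fun v =>
    δ v + if v = rep v then ∑ u ∈ univ.filter (fun u => π.SameCycle v u), δ u else 0
  have hY : Bal π Y := by
    apply bal_of_sum
    intro r
    have h1 : ∑ v ∈ univ.filter (fun v => π.SameCycle r v),
        (if v = rep v then ∑ u ∈ univ.filter (fun u => π.SameCycle v u), δ u else 0) =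
        ∑ u ∈ univ.filter (fun u => π.SameCycle r u), δ u := by
      rw [Finset.sum_eq_single (rep r)]
      · have h2 : rep r = rep (rep r) := hrep2 _ _ (hrep r).symm
        rw [if_pos h2]
        apply Finset.sum_congr _ (fun _ _ => rfl)
        apply Finset.filter_congr
        intro u _
        exact ⟨fun h => (hrep r).symm.trans h, fun h => (hrep r).trans h⟩
      · intro v hv hne
        rw [Finset.mem_filter] at hv
        rw [if_neg]
        intro h
        apply hne
        rw [h]
        exact (hrep2 _ _ hv.2).symm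
      · intro h
        exfalso
        apply h
        rw [Finset.mem_filter]
        exact ⟨Finset.mem_univ _, (hrep r).symm⟩
    show ∑ v ∈ univ.filter (fun v => π.SameCycle r v), (δ v + _) = 0
    rw [Finset.sum_add_distrib, h1, f2_add_self]
  obtain ⟨τ, hτ, _⟩ := exists_pot π (Equiv.refl V) (fun v => rfl) (fun _ => False)
    (fun _ h => h) Y hY (by
      intro Z _ _ h v
      by_contra hne
      exact h v hne)
  refine ⟨τ, fun v hv => ?_⟩
  rw [hτ v]
  show δ v + _ = δ v
  rw [if_neg hv, add_zero]

theorem exists_states (π : Equiv.Perm V) (hπ : ∀ v, π v ≠ v) (pos : V → F2 × F2)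
    (hpos : ∀ v, pos v ≠ pos (π.symm v)) :
    ∃ S : V → (Fin 3 → Fin 5), ∀ v, VOK (S (π.symm v)) (S v) (mst (pos v + pos (π.symm v))) := by
  classical
  obtain ⟨rep, hrep, hrep2⟩ := exists_rep π
  have hsymm : ∀ v, π.SameCycle (π.symm v) v := by
    intro v
    exact Equiv.Perm.sameCycle_symm_apply_left.2 (Equiv.Perm.SameCycle.refl _ _)
  have hrs : ∀ v, rep (π.symm v) = rep v := fun v => hrep2 _ _ (hsymm v)
  have hra : ∀ v, rep (π v) = rep v := by
    intro v
    rw [← hrs (π v), Equiv.symm_apply_apply]
  choose sh hsh1 hsh2 hsh3 using fun r : V => exists_avoid (pos (π.symm r)) (pos r) (pos (π r))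
  let s : V → F2 × F2 := fun v => pos v + sh (rep v)
  have hs_sum : ∀ v, s v + s (π.symm v) = pos v + pos (π.symm v) := by
    intro v
    show pos v + sh (rep v) + (pos (π.symm v) + sh (rep (π.symm v))) = _
    rw [hrs, add_add_add_comm, f22_add_self, add_zero]
  have hs_ne : ∀ v, s v ≠ s (π.symm v) := by
    intro v h
    apply hpos v
    show pos v = pos (π.symm v)
    have h1 : pos v + sh (rep v) = pos (π.symm v) + sh (rep (π.symm v)) := h
    rw [hrs] at h1
    exact add_right_cancel h1
  have hs_ne' : ∀ v, s (π v) ≠ s v := by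
    intro v h
    apply hs_ne (π v)
    rw [Equiv.symm_apply_apply]; exact h
  -- values near the representatives
  have hr1 : ∀ r, r = rep r → s (π.symm r) ≠ 0 := by
    intro r hr
    show pos (π.symm r) + sh (rep (π.symm r)) ≠ 0
    rw [hrs, ← hr]; exact hsh1 r
  have hr2 : ∀ r, r = rep r → s r ≠ 0 := by
    intro r hr
    show pos r + sh (rep r) ≠ 0
    rw [← hr]; exact hsh2 r
  have hr3 : ∀ r, r = rep r → s (π r) ≠ 0 := by
    intro r hr
    show pos (π r) + sh (rep (π r)) ≠ 0
    rw [hra, ← hr]; exact hsh3 r
  obtain ⟨τ, hτ⟩ := exists_tau π rep hrep hrep2 (fun v =>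
    if s v = 0 then 0 else if s (π.symm v) = 0 then
      (if s v = s (π.symm (π.symm v)) then 0 else 1) else 1)
  let t : V → Fin 3 := fun v => if v = rep v then 2 else if τ v = 0 then 0 else 1
  have ht2 : ∀ v, v = rep v → t v = 2 := fun v hv => if_pos hv
  have ht2' : ∀ v, v ≠ rep v → t v ≠ 2 := by
    intro v hv
    show (if v = rep v then (2 : Fin 3) else if τ v = 0 then 0 else 1) ≠ 2
    rw [if_neg hv]
    split_ifs <;> decide
  have ht_eq : ∀ u v, u ≠ rep u → v ≠ rep v → (t u = t v ↔ τ u = τ v) := by
    intro u v hu hv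
    show (if u = rep u then (2 : Fin 3) else if τ u = 0 then 0 else 1) =
      (if v = rep v then (2 : Fin 3) else if τ v = 0 then 0 else 1) ↔ _
    rw [if_neg hu, if_neg hv]
    rcases f2_cases (τ u) with h | h <;> rcases f2_cases (τ v) with h' | h' <;>
      rw [h, h'] <;> simp
  -- representative of the neighbours
  have hnr1 : ∀ v, s v = 0 → π.symm v ≠ rep (π.symm v) := by
    intro v hv h
    have := hr3 _ h
    rw [Equiv.apply_symm_apply] at this
    exact this hv
  have hnr2 : ∀ v, s v = 0 → π v ≠ rep (π v) := by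
    intro v hv h
    have := hr1 _ h
    rw [Equiv.symm_apply_apply] at this
    exact this hv
  have hnr0 : ∀ v, s v = 0 → v ≠ rep v := fun v hv h => hr2 _ h hv
  let S : V → (Fin 3 → Fin 5) := fun v =>
    if s v = 0 then zr (t (π.symm v)) (s (π.symm v)) (s (π v)) else nz (t v) (s v)
  refine ⟨S, fun v => ?_⟩
  rw [← hs_sum]
  by_cases h2 : s v = 0
  · -- the next edge is at position zero
    have h1 : s (π.symm v) ≠ 0 := fun h => hs_ne v (by rw [h2, h])
    have h3 : s (π v) ≠ 0 := fun h => hs_ne' v (by rw [h2, h])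
    have hS1 : S (π.symm v) = nz (t (π.symm v)) (s (π.symm v)) := if_neg h1
    have hS2 : S v = zr (t (π.symm v)) (s (π.symm v)) (s (π v)) := if_pos h2
    rw [hS1, hS2, h2, zero_add]
    exact ⟨_, ok_nz_zr _ _ h1 h3 _ (ht2' _ (hnr1 v h2))⟩
  · have hS2 : S v = nz (t v) (s v) := if_neg h2
    by_cases h1 : s (π.symm v) = 0
    · have h0 : s (π.symm (π.symm v)) ≠ 0 := fun h => hs_ne (π.symm v) (by rw [h1, h])
      have hS1 : S (π.symm v) = zr (t (π.symm (π.symm v))) (s (π.symm (π.symm v))) (s v) := by
        show (if s (π.symm v) = 0 then _ else _) = _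
        rw [if_pos h1, Equiv.apply_symm_apply]
      rw [hS1, hS2, h1, add_zero]
      have hn0 := hnr1 _ h1
      have hn1 := hnr0 _ h1
      have hn2 : v ≠ rep v := by
        have := hnr2 _ h1
        rwa [Equiv.apply_symm_apply] at this
      have e1 := hτ _ hn1
      have e2 := hτ _ hn2
      simp only [h1, h2, if_true, if_false] at e1 e2
      have e1' : τ (π.symm v) = τ (π.symm (π.symm v)) := by
        rcases f2_cases (τ (π.symm v)) with h | h <;>
          rcases f2_cases (τ (π.symm (π.symm v))) with h' | h' <;> rw [h, h'] at e1 ⊢ <;>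
          exact absurd e1 (by decide)
      refine ⟨_, ok_zr_nz _ _ h0 h2 _ _ (ht2' _ hn0) (ht2' _ hn2) ?_ ?_⟩
      · intro heq
        rw [if_pos heq.symm] at e2
        rw [ht_eq _ _ hn2 hn0, ← e1']
        rcases f2_cases (τ v) with h | h <;>
          rcases f2_cases (τ (π.symm v)) with h' | h' <;> rw [h, h'] at e2 ⊢ <;>
          exact absurd e2 (by decide)
      · intro heq
        rw [if_neg (fun h => heq h.symm)] at e2
        rw [Ne, ht_eq _ _ hn2 hn0, ← e1']
        intro h
        rw [h, f2_add_self] at e2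
        exact absurd e2 (by decide)
    · have hS1 : S (π.symm v) = nz (t (π.symm v)) (s (π.symm v)) := if_neg h1
      rw [hS1, hS2, add_comm (s v)]
      have hkey : t (π.symm v) = t v → t v = 2 := by
        intro h
        by_contra h3
        have hn2 : v ≠ rep v := fun h' => h3 (ht2 v h')
        have hn1 : π.symm v ≠ rep (π.symm v) := by
          intro h'
          apply h3
          rw [← h]; exact ht2 _ h'
        have e2 := hτ _ hn2
        simp only [h1, h2, if_false] at e2
        rw [ht_eq _ _ hn1 hn2] at h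
        rw [h, f2_add_self] at e2
        exact absurd e2 (by decide)
      refine ⟨_, ok_nz_nz _ _ h1 h2 (fun h => hs_ne v h.symm) _ _ ?_ ?_⟩
      · rintro ⟨h3, h4⟩
        have := hkey (by rw [h3, h4])
        rw [h4] at this
        exact absurd this (by decide)
      · rintro ⟨h3, h4⟩
        have := hkey (by rw [h3, h4])
        rw [h4] at this
        exact absurd this (by decide)

end Pool.Agent.H166R2.Kotzig
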