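import Pool.Agent.H166R2.Kotzig.Main

set_option autoImplicit false

/-!
The Cartesian product of a bridgeless cubic graph with a triangle has a 1-factorization.
-/

namespace Pool.Agent.H166R2.Kotzig

open Finset
open Pool.Agent.Helper879.ECD

theorem kotzig (V : Type) [Fintype V] [DecidableEq V] (G : SimpleGraph V) [DecidableRel G.Adj]
    (hreg : G.IsRegularOfDegree 3)
    (hbr : ∀ u v, G.Adj u v → (G.deleteEdges {s(u, v)}).Reachable u v) :
    ∃ M : Fin 5 → (SimpleGraph.boxProd G (⊤ : SimpleGraph (Fin 3))).Subgraph,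
      (∀ i, (M i).IsPerfectMatching) ∧
        ∀ e ∈ (SimpleGraph.boxProd G (⊤ : SimpleGraph (Fin 3))).edgeSet,
          ∃! i, e ∈ (M i).edgeSet := by
  classical
  let G' : MGraph V G.edgeSet :=
    { ends := fun e => e.1
      loopless := fun e => G.not_isDiag_of_mem_edgeSet e.2 }
  have hab : ∀ e : G.edgeSet, ∃ p : V × V, G'.ends e = s(p.1, p.2) := by
    intro e
    induction h : G'.ends e with
    | _ x y => exact ⟨(x, y), rfl⟩
  choose ab hab using hab
  let a : G.edgeSet → V := fun e => (ab e).1
  let b : G.edgeSet → V := fun e => (ab e).2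
  have hends : ∀ e, G'.ends e = s(a e, b e) := hab
  have hne : ∀ e, a e ≠ b e := by
    intro e h
    apply G'.loopless e
    rw [hends, h]; exact Sym2.mk_isDiag_iff.2 rfl
  have hmem : ∀ (e : G.edgeSet) v, v ∈ e.1 ↔ v = a e ∨ v = b e := by
    intro e v
    have : e.1 = s(a e, b e) := hends e
    rw [this, Sym2.mem_iff]
  have hsing : ∀ (e : G.edgeSet) v,
      ¬ (a e ∈ ({v} : Finset V) ↔ b e ∈ ({v} : Finset V)) ↔ v ∈ e.1 := by
    intro e v
    rw [hmem, Finset.mem_singleton, Finset.mem_singleton]
    have := hne e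
    constructor
    · intro h
      by_contra hcon
      push Not at hcon
      exact h ⟨fun h' => absurd h'.symm hcon.1, fun h' => absurd h'.symm hcon.2⟩
    · rintro (rfl | rfl) h
      · exact this (h.1 rfl).symm
      · exact this (h.2 rfl)
  have hc : ∀ w, cn a b univ {w} = 3 := by
    intro w
    rw [← hreg w, ← G.card_incidenceFinset_eq_degree w]
    unfold cn
    rw [← Finset.card_map (Function.Embedding.subtype (· ∈ G.edgeSet))]
    congr 1
    ext e
    rw [Finset.mem_map, SimpleGraph.mem_incidenceFinset]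
    constructor
    · rintro ⟨e', he', rfl⟩
      rw [Finset.mem_filter] at he'
      exact ⟨e'.2, (hsing e' w).1 he'.2⟩
    · rintro ⟨he, hw⟩
      exact ⟨⟨e, he⟩, Finset.mem_filter.2 ⟨Finset.mem_univ _, (hsing ⟨e, he⟩ w).2 hw⟩, rfl⟩
  have hb : ∀ X : Finset V, cn a b univ X ≠ 1 := by
    intro X hX
    unfold cn at hX
    obtain ⟨e0, he0⟩ := Finset.card_eq_one.1 hX
    have hcut : ∀ e, ¬ (a e ∈ X ↔ b e ∈ X) → e = e0 := by
      intro e he
      have : e ∈ univ.filter (fun e => ¬ (a e ∈ X ↔ b e ∈ X)) :=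
        Finset.mem_filter.2 ⟨Finset.mem_univ _, he⟩
      rw [he0, Finset.mem_singleton] at this; exact this
    have he0' : ¬ (a e0 ∈ X ↔ b e0 ∈ X) := by
      have : e0 ∈ univ.filter (fun e => ¬ (a e ∈ X ↔ b e ∈ X)) := by
        rw [he0]; exact Finset.mem_singleton_self _
      exact (Finset.mem_filter.1 this).2
    have hadj0 : G.Adj (a e0) (b e0) := by
      have h1 : e0.1 = s(a e0, b e0) := hends e0
      have h2 := e0.2
      rw [h1] at h2
      exact h2
    obtain ⟨w⟩ := hbr _ _ hadj0
    -- the walk stays on one side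
    have key : ∀ x y : V, (G.deleteEdges {s(a e0, b e0)}).Walk x y → (x ∈ X ↔ y ∈ X) := by
      intro x y w
      induction w with
      | nil => exact Iff.rfl
      | @cons x z y h _ ih =>
        rw [← ih]
        rw [SimpleGraph.deleteEdges_adj] at h
        by_contra hcon
        have hxz : G.Adj x z := h.1
        let e : G.edgeSet := ⟨s(x, z), hxz⟩
        have h1 : s(x, z) = s(a e, b e) := hends e
        have h2 : e = e0 := by
          apply hcut
          rcases Sym2.eq_iff.1 h1 with ⟨h3, h4⟩ | ⟨h3, h4⟩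
          · rw [← h3, ← h4]; exact hcon
          · rw [← h3, ← h4]; exact fun h5 => hcon h5.symm
        apply h.2
        rw [Set.mem_singleton_iff]
        have h3 : e0.1 = s(a e0, b e0) := hends e0
        rw [← h3, ← h2]
    exact he0' (key _ _ w)
  obtain ⟨π, m, f, g, p, q, hmod, hval⟩ := exists_model G' a b hends hc hb
  obtain ⟨hnz, hpm, hqm, hbp, hbq⟩ := hval
  -- potentials
  have hpot : ∀ Y : V → F2, Bal π Y → ∃ y : V → F2, ∀ v, y v + y (π.symm v) = Y v := by
    intro Y hY
    obtain ⟨y, hy, _⟩ := exists_pot π (Equiv.refl V) (fun v => rfl) (fun _ => False)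
      (fun _ h => h) Y hY (by
        intro Z _ _ h v
        by_contra hne
        exact h v hne)
    exact ⟨y, hy⟩
  obtain ⟨P, hP⟩ := hpot p hbp
  obtain ⟨Q, hQ⟩ := hpot q hbq
  have hef : ∀ v, (f v).1 = s(v, π v) := hmod.ef
  have heg : ∀ v, (g v).1 = s(v, m v) := hmod.eg
  have hπs : ∀ v, π.symm v ≠ v := by
    intro v h
    apply hmod.hπ v
    rw [← h, Equiv.apply_symm_apply]
    exact h.symm
  apply of_perm G π m (pos := fun v => (P v, Q v))
  · -- adjacency
    intro u v
    constructor
    · intro h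
      let e : G.edgeSet := ⟨s(u, v), h⟩
      rcases hmod.cover e with ⟨w, hw⟩ | ⟨w, hw⟩
      · have h1 : s(u, v) = s(w, π w) := by
          rw [← hef w, ← hw]
        rcases Sym2.eq_iff.1 h1 with ⟨rfl, rfl⟩ | ⟨rfl, rfl⟩
        · exact Or.inr (Or.inl rfl)
        · exact Or.inl (Equiv.symm_apply_apply π v).symm
      · have h1 : s(u, v) = s(w, m w) := by
          rw [← heg w, ← hw]
        rcases Sym2.eq_iff.1 h1 with ⟨rfl, rfl⟩ | ⟨rfl, rfl⟩
        · exact Or.inr (Or.inr rfl)
        · exact Or.inr (Or.inr (hmod.hm v).symm)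
    · have hf : ∀ v, G.Adj v (π v) := by
        intro v
        have h1 := (f v).2
        rw [hef] at h1
        exact h1
      have hg : ∀ v, G.Adj v (m v) := by
        intro v
        have h1 := (g v).2
        rw [heg] at h1
        exact h1
      rintro (rfl | rfl | rfl)
      · have := hf (π.symm u)
        rw [Equiv.apply_symm_apply] at this
        exact this.symm
      · exact hf u
      · exact hg u
  · exact hmod.hπ
  · intro v h
    have h1 : (f v).1 = (f (π.symm v)).1 := by
      rw [hef, hef, Equiv.apply_symm_apply, ← h, Sym2.eq_swap]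
    exact hπs v (hmod.finj (Subtype.ext h1)).symm
  · exact hmod.hm
  · intro v h
    have h1 : (f v).1 = (g v).1 := by rw [hef, heg, h]
    exact hmod.fg v v (Subtype.ext h1)
  · intro v h
    have h1 : (f (π.symm v)).1 = (g v).1 := by
      rw [hef, heg, h, Equiv.apply_symm_apply, Sym2.eq_swap]
    exact hmod.fg _ _ (Subtype.ext h1)
  · intro v h
    rw [Prod.mk.injEq] at h
    have h1 := hP v
    have h2 := hQ v
    rw [h.1, f2_add_self] at h1
    rw [h.2, f2_add_self] at h2
    rcases hnz v with h3 | h3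
    · exact h3 h1.symm
    · exact h3 h2.symm
  · intro v
    show (P (m v) + P (π.symm (m v)), Q (m v) + Q (π.symm (m v))) =
      (P v + P (π.symm v), Q v + Q (π.symm v))
    rw [hP, hQ, hP, hQ, hpm, hqm]

end Pool.Agent.H166R2.Kotzig
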