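import Pool.Agent.H166R2.Kotzig.Colour

set_option autoImplicit false

/-!
The Cartesian product of a bridgeless cubic graph with a triangle has a 1-factorization.
-/

namespace Pool.Agent.H166R2.Kotzig

open Finset
open Pool.Agent.Helper879.ECD

lemma inj_of_nodup {a b c d e : Fin 5} (h : List.Nodup [a, b, c, d, e]) :
    Function.Injective ![a, b, c, d, e] := by
  have h1 : List.ofFn ![a, b, c, d, e] = [a, b, c, d, e] := by
    simp [List.ofFn_succ]
  rw [← h1] at h
  exact List.nodup_ofFn.1 h

lemma Ok.inj {e e' m T : Fin 3 → Fin 5} (h : Ok e e' m T) (i : Fin 3) :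
    Function.Injective ![e i, e' i, m i, T (i + 1), T (i + 2)] := by
  obtain ⟨h0, h1, h2⟩ := h
  fin_cases i
  · exact inj_of_nodup h0
  · apply inj_of_nodup
    have h3 : List.Perm [e 1, e' 1, m 1, T 0, T 2] [e 1, e' 1, m 1, T 2, T 0] := by
      refine List.Perm.cons _ (List.Perm.cons _ (List.Perm.cons _ ?_))
      exact List.Perm.swap _ _ _
    exact h3.nodup_iff.1 h1
  · exact inj_of_nodup h2

section Fact

variable {W : Type}

/-- A proper edge colouring in which every vertex sees every colour exactly once gives a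
1-factorization. -/
lemma factorization (H : SimpleGraph W) (K : Type) (col : W → W → K)
    (hsymm : ∀ x y, H.Adj x y → col x y = col y x)
    (huniq : ∀ x c, ∃! y, H.Adj x y ∧ col x y = c) :
    ∃ M : K → H.Subgraph, (∀ i, (M i).IsPerfectMatching) ∧
      ∀ e ∈ H.edgeSet, ∃! i, e ∈ (M i).edgeSet := by
  let M : K → H.Subgraph := fun c =>
    { verts := Set.univ
      Adj := fun x y => H.Adj x y ∧ col x y = c
      adj_sub := fun h => h.1
      edge_vert := fun _ => Set.mem_univ _
      symm := ⟨fun x y h => ⟨h.1.symm, by rw [← hsymm x y h.1]; exact h.2⟩⟩ }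
  refine ⟨M, ?_, ?_⟩
  · intro c
    rw [SimpleGraph.Subgraph.isPerfectMatching_iff]
    intro x
    exact huniq x c
  · intro e
    induction e with
    | _ x y =>
    intro h
    have hadj : H.Adj x y := h
    refine ⟨col x y, ?_, ?_⟩
    · show s(x, y) ∈ (M (col x y)).edgeSet
      rw [SimpleGraph.Subgraph.mem_edgeSet]
      exact ⟨hadj, rfl⟩
    · intro c hc
      rw [SimpleGraph.Subgraph.mem_edgeSet] at hc
      exact hc.2.symm

end Fact

variable {V : Type} [Fintype V] [DecidableEq V]

/-- The construction, from the combinatorial description of a cubic graph by a permutation and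
an involution. -/
theorem of_perm (G : SimpleGraph V) (π : Equiv.Perm V) (m : V → V)
    (hadj : ∀ u v, G.Adj u v ↔ (v = π.symm u ∨ v = π u ∨ v = m u))
    (hπ : ∀ v, π v ≠ v) (hππ : ∀ v, π v ≠ π.symm v) (hm : ∀ v, m (m v) = v)
    (hmπ : ∀ v, m v ≠ π v) (hmπ' : ∀ v, m v ≠ π.symm v)
    (pos : V → F2 × F2) (hpos : ∀ v, pos v ≠ pos (π.symm v))
    (hposm : ∀ v, pos (m v) + pos (π.symm (m v)) = pos v + pos (π.symm v)) :
    ∃ M : Fin 5 → (SimpleGraph.boxProd G (⊤ : SimpleGraph (Fin 3))).Subgraph,
      (∀ i, (M i).IsPerfectMatching) ∧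
        ∀ e ∈ (SimpleGraph.boxProd G (⊤ : SimpleGraph (Fin 3))).edgeSet,
          ∃! i, e ∈ (M i).edgeSet := by
  classical
  obtain ⟨S, hS⟩ := exists_states π hπ pos hpos
  choose T hT using hS
  have hmne : ∀ v, m v ≠ v := by
    intro v h
    have h1 : G.Adj v (m v) := (hadj v (m v)).2 (Or.inr (Or.inr rfl))
    rw [h] at h1
    exact G.loopless.irrefl v h1
  have hπs : ∀ v, π.symm v ≠ v := by
    intro v h
    apply hπ v
    rw [← h, Equiv.apply_symm_apply]
    exact h.symm
  let third : Fin 3 → Fin 3 → Fin 3 := fun i j => -(i + j)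
  let col : V × Fin 3 → V × Fin 3 → Fin 5 := fun x y =>
    if x.1 = y.1 then T x.1 (third x.2 y.2)
    else if y.1 = π x.1 then S x.1 x.2
    else if x.1 = π y.1 then S y.1 x.2
    else mst (pos x.1 + pos (π.symm x.1)) x.2
  let N : V × Fin 3 → Fin 5 → V × Fin 3 := fun x =>
    ![(π.symm x.1, x.2), (π x.1, x.2), (m x.1, x.2), (x.1, x.2 + 1), (x.1, x.2 + 2)]
  let cv : V × Fin 3 → Fin 5 → Fin 5 := fun x =>
    ![S (π.symm x.1) x.2, S x.1 x.2, mst (pos x.1 + pos (π.symm x.1)) x.2,
      T x.1 (x.2 + 1), T x.1 (x.2 + 2)]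
  -- permuted colour vector
  let sw : Fin 5 → Fin 5 := ![0, 1, 2, 4, 3]
  have hsw : Function.Injective sw := by decide
  have hcv : ∀ x, Function.Bijective (fun k => cv x (sw k)) := by
    intro x
    rw [← Finite.injective_iff_bijective]
    exact ((hT x.1).inj x.2).comp hsw
  have hN : ∀ x y, (SimpleGraph.boxProd G (⊤ : SimpleGraph (Fin 3))).Adj x y ↔ ∃ k, y = N x k := by
    intro x y
    obtain ⟨u, i⟩ := x
    obtain ⟨v, j⟩ := y
    rw [SimpleGraph.boxProd_adj, SimpleGraph.top_adj, hadj]
    constructor
    · rintro (⟨h | h | h, h'⟩ | ⟨h, h'⟩)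
      · exact ⟨0, Prod.ext h h'.symm⟩
      · exact ⟨1, Prod.ext h h'.symm⟩
      · exact ⟨2, Prod.ext h h'.symm⟩
      · simp only at h h'
        subst h'
        have h3 : j = i + 1 ∨ j = i + 2 := by
          revert h; revert i j; decide
        rcases h3 with rfl | rfl
        · exact ⟨3, rfl⟩
        · exact ⟨4, rfl⟩
    · rintro ⟨k, hk⟩
      have hi1 : i ≠ i + 1 := (by decide : ∀ i : Fin 3, i ≠ i + 1) i
      have hi2 : i ≠ i + 2 := (by decide : ∀ i : Fin 3, i ≠ i + 2) i
      fin_cases k
      · have h : ((v, j) : V × Fin 3) = (π.symm u, i) := hk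
        rw [Prod.mk.injEq] at h
        exact Or.inl ⟨Or.inl h.1, h.2.symm⟩
      · have h : ((v, j) : V × Fin 3) = (π u, i) := hk
        rw [Prod.mk.injEq] at h
        exact Or.inl ⟨Or.inr (Or.inl h.1), h.2.symm⟩
      · have h : ((v, j) : V × Fin 3) = (m u, i) := hk
        rw [Prod.mk.injEq] at h
        exact Or.inl ⟨Or.inr (Or.inr h.1), h.2.symm⟩
      · have h : ((v, j) : V × Fin 3) = (u, i + 1) := hk
        rw [Prod.mk.injEq] at h
        exact Or.inr ⟨by rw [h.2]; exact hi1, h.1.symm⟩
      · have h : ((v, j) : V × Fin 3) = (u, i + 2) := hk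
        rw [Prod.mk.injEq] at h
        exact Or.inr ⟨by rw [h.2]; exact hi2, h.1.symm⟩
  have hcol : ∀ x k, col x (N x k) = cv x (sw k) := by
    rintro ⟨u, i⟩ k
    fin_cases k
    · show col (u, i) (π.symm u, i) = S (π.symm u) i
      show (if u = π.symm u then _ else if π.symm u = π u then _ else
        if u = π (π.symm u) then _ else _) = _
      rw [if_neg (fun h => hπs u h.symm), if_neg (fun h => hππ u h.symm),
        if_pos (Equiv.apply_symm_apply π u).symm]
    · show (if u = π u then _ else if π u = π u then _ else _) = S u i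
      rw [if_neg (fun h => hπ u h.symm), if_pos rfl]
    · show (if u = m u then _ else if m u = π u then _ else
        if u = π (m u) then _ else _) = mst (pos u + pos (π.symm u)) i
      rw [if_neg (fun h => hmne u h.symm), if_neg (hmπ u), if_neg]
      intro h
      apply hmπ' u
      rw [h, Equiv.symm_apply_apply, ← h]
    · show (if u = u then T u (third i (i + 1)) else _) = T u (i + 2)
      rw [if_pos rfl]
      congr 1
      show -(i + (i + 1)) = i + 2
      revert i; decide
    · show (if u = u then T u (third i (i + 2)) else _) = T u (i + 1)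
      rw [if_pos rfl]
      congr 1
      show -(i + (i + 2)) = i + 1
      revert i; decide
  apply factorization _ (Fin 5) col
  · -- symmetry
    rintro ⟨u, i⟩ ⟨v, j⟩ h
    rw [SimpleGraph.boxProd_adj, SimpleGraph.top_adj, hadj] at h
    rcases h with ⟨h, h'⟩ | ⟨h, h'⟩
    · simp only at h h'
      subst h'
      show (if u = v then _ else if v = π u then S u i else if u = π v then S v i else
          mst (pos u + pos (π.symm u)) i) =
        (if v = u then _ else if u = π v then S v i else if v = π u then S u i else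
          mst (pos v + pos (π.symm v)) i)
      have huv : u ≠ v := by
        rcases h with h | h | h
        · rw [h]; exact (hπs u).symm
        · rw [h]; exact (hπ u).symm
        · rw [h]; exact (hmne u).symm
      rw [if_neg huv, if_neg huv.symm]
      by_cases h1 : v = π u
      · have h2 : ¬ u = π v := by
          intro h2
          apply hππ u
          rw [← h1]
          rw [h2, Equiv.symm_apply_apply]
        rw [if_pos h1, if_neg h2, if_pos h1]
      · by_cases h2 : u = π v
        · rw [if_neg h1, if_pos h2, if_pos h2]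
        · rw [if_neg h1, if_neg h2, if_neg h2, if_neg h1]
          have h3 : v = m u := by
            rcases h with h | h | h
            · exfalso; apply h2; rw [h, Equiv.apply_symm_apply]
            · exact absurd h h1
            · exact h
          rw [h3, hposm]
    · simp only at h h'
      subst h'
      show (if u = u then T u (third i j) else _) = (if u = u then T u (third j i) else _)
      rw [if_pos rfl, if_pos rfl]
      show T u (-(i + j)) = T u (-(j + i))
      rw [add_comm i j]
  · intro x c
    obtain ⟨k, hk, hk2⟩ := (hcv x).existsUnique c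
    refine ⟨N x k, ⟨(hN x _).2 ⟨k, rfl⟩, ?_⟩, ?_⟩
    · rw [hcol]; exact hk
    · rintro y ⟨hy, hyc⟩
      obtain ⟨k', rfl⟩ := (hN x y).1 hy
      rw [hcol] at hyc
      rw [hk2 k' hyc]

end Pool.Agent.H166R2.Kotzig
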