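import Pool.Agent.Helper879.ECD.Final

set_option autoImplicit false

/-!
A bridgeless cubic multigraph has a perfect matching whose complementary 2-factor can be contracted
to a graph with a nowhere-zero flow over the Klein four group.  (The construction is the first half
of the proof of `Pool.Agent.Helper879.ECD.ecd_of_bridgeless`.)
-/

namespace Pool.Agent.H166R2.Kotzig

open Finset
open Pool.Agent.Helper879.ECD

variable {V E : Type} [Fintype V] [DecidableEq V] [Fintype E] [DecidableEq E]

theorem exists_model (G : MGraph V E) (a b : E → V) (hends : ∀ e, G.ends e = s(a e, b e))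
    (hc : ∀ w, cn a b univ {w} = 3) (hb : ∀ X : Finset V, cn a b univ X ≠ 1) :
    ∃ (π : Equiv.Perm V) (m : V → V) (f g : V → E) (p q : V → F2),
      IsModel G π m f g ∧ Valid π m p q := by
  classical
  have hab : ∀ e, a e ≠ b e := by
    intro e h
    apply G.loopless e
    rw [hends, h]; exact Sym2.mk_isDiag_iff.2 rfl
  have hmem : ∀ e v, v ∈ G.ends e ↔ v = a e ∨ v = b e := by
    intro e v; rw [hends, Sym2.mem_iff]
  have hsing : ∀ e v, ¬ (a e ∈ ({v} : Finset V) ↔ b e ∈ ({v} : Finset V)) ↔ v ∈ G.ends e := by
    intro e v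
    rw [hmem, Finset.mem_singleton, Finset.mem_singleton]
    have := hab e
    constructor
    · intro h
      by_contra hcon
      push Not at hcon
      exact h ⟨fun h' => absurd h'.symm hcon.1, fun h' => absurd h'.symm hcon.2⟩
    · rintro (rfl | rfl) h
      · exact this (h.1 rfl).symm
      · exact this (h.2 rfl)
  -- the perfect matching
  obtain ⟨M, hM⟩ : ∃ M : Finset E, ∀ X : Finset V, cn a b univ X = 3 → cn a b M X = 1 := by
    by_cases hE : Nonempty E
    · obtain ⟨e0⟩ := hE
      obtain ⟨M, _, hM⟩ := exists_pm3 _ V a b rfl hc hb e0 (hab e0)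
      exact ⟨M, hM⟩
    · refine ⟨∅, fun X hX => ?_⟩
      rw [not_nonempty_iff] at hE
      unfold cn at hX
      have h0 : (univ : Finset E) = ∅ := Finset.univ_eq_empty
      rw [h0] at hX
      simp at hX
  have hM1 : ∀ v, cn a b M {v} = 1 := fun v => hM {v} (hc v)
  have hMv : ∀ v, ∃ e, e ∈ M ∧ v ∈ G.ends e ∧ ∀ e', e' ∈ M → v ∈ G.ends e' → e' = e := by
    intro v
    have h1 := hM1 v
    unfold cn at h1
    obtain ⟨e, he⟩ := Finset.card_eq_one.1 h1
    have h2 : ∀ e', (e' ∈ M ∧ v ∈ G.ends e') ↔ e' = e := by
      intro e'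
      have : e' ∈ M.filter (fun e => ¬ (a e ∈ ({v} : Finset V) ↔ b e ∈ ({v} : Finset V))) ↔
          e' ∈ ({e} : Finset E) := by rw [he]
      rw [Finset.mem_filter, hsing, Finset.mem_singleton] at this
      exact this
    exact ⟨e, ((h2 e).2 rfl).1, ((h2 e).2 rfl).2, fun e' h3 h4 => (h2 e').1 ⟨h3, h4⟩⟩
  choose g hgM hgv hguniq using hMv
  -- the other end of an edge
  let oth : V → E → V := fun v e => if a e = v then b e else a e
  have hoth : ∀ v e, v ∈ G.ends e → G.ends e = s(v, oth v e) := by
    intro v e hv
    rw [hends]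
    rcases (hmem e v).1 hv with rfl | rfl
    · simp only [oth, if_true]
    · simp only [oth, if_neg (hab e)]
      exact Sym2.eq_swap
  have hothne : ∀ v e, v ∈ G.ends e → oth v e ≠ v := by
    intro v e hv h
    apply G.loopless e
    rw [hoth v e hv, h]; exact Sym2.mk_isDiag_iff.2 rfl
  let m : V → V := fun v => oth v (g v)
  have heg : ∀ v, G.ends (g v) = s(v, m v) := fun v => hoth v (g v) (hgv v)
  have hne : ∀ v, m v ≠ v := fun v => hothne v (g v) (hgv v)
  have hgm : ∀ v, g (m v) = g v := by
    intro v
    refine (hguniq (m v) (g v) (hgM v) ?_).symm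
    rw [heg]; exact Sym2.mem_mk_right _ _
  have hm : ∀ v, m (m v) = v := by
    intro v
    have h1 := heg (m v)
    rw [hgm, heg] at h1
    rcases Sym2.eq_iff.1 h1 with ⟨h2, _⟩ | ⟨h2, _⟩
    · exact absurd h2.symm (hne v)
    · exact h2.symm
  -- the edges of the 2-factor
  have hnonM : ∀ v, (univ.filter (fun e => e ∉ M ∧ v ∈ G.ends e)).card = 2 := by
    intro v
    have h1 := hc v
    have h2 := hM1 v
    unfold cn at h1 h2
    have h3 : univ.filter (fun e => ¬ (a e ∈ ({v} : Finset V) ↔ b e ∈ ({v} : Finset V))) =
        univ.filter (fun e => e ∉ M ∧ v ∈ G.ends e) ∪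
        M.filter (fun e => ¬ (a e ∈ ({v} : Finset V) ↔ b e ∈ ({v} : Finset V))) := by
      ext e
      rw [Finset.mem_union, Finset.mem_filter, Finset.mem_filter, Finset.mem_filter, hsing]
      by_cases h : e ∈ M <;> simp [h]
    rw [h3, Finset.card_union_of_disjoint, h2] at h1
    · omega
    · rw [Finset.disjoint_left]
      intro e he he'
      exact (Finset.mem_filter.1 he).2.1 (Finset.mem_filter.1 he').1
  -- Hall
  obtain ⟨f, hfinj, hfv⟩ : ∃ f : V → E, Function.Injective f ∧
      ∀ v, f v ∈ univ.filter (fun e => e ∉ M ∧ v ∈ G.ends e) := by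
    rw [← Finset.all_card_le_biUnion_card_iff_exists_injective]
    intro S
    -- double counting
    have h1 : ∑ v ∈ S, (univ.filter (fun e => e ∉ M ∧ v ∈ G.ends e)).card = 2 * S.card := by
      rw [Finset.sum_congr rfl (fun v _ => hnonM v), Finset.sum_const, smul_eq_mul, mul_comm]
    have h2 := Finset.sum_card_bipartiteAbove_eq_sum_card_bipartiteBelow (s := S)
      (t := S.biUnion (fun v => univ.filter (fun e => e ∉ M ∧ v ∈ G.ends e)))
      (fun v e => e ∉ M ∧ v ∈ G.ends e)
    have h3 : ∀ v ∈ S, (Finset.bipartiteAbove (fun v e => e ∉ M ∧ v ∈ G.ends e)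
        (S.biUnion (fun v => univ.filter (fun e => e ∉ M ∧ v ∈ G.ends e))) v).card =
        (univ.filter (fun e => e ∉ M ∧ v ∈ G.ends e)).card := by
      intro v hv
      congr 1
      ext e
      rw [Finset.mem_bipartiteAbove, Finset.mem_biUnion, Finset.mem_filter]
      constructor
      · rintro ⟨_, h⟩; exact ⟨Finset.mem_univ _, h⟩
      · rintro ⟨_, h⟩
        exact ⟨⟨v, hv, Finset.mem_filter.2 ⟨Finset.mem_univ _, h⟩⟩, h⟩
    rw [Finset.sum_congr rfl h3, h1] at h2
    have h4 : ∀ e ∈ S.biUnion (fun v => univ.filter (fun e => e ∉ M ∧ v ∈ G.ends e)),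
        (Finset.bipartiteBelow (fun v e => e ∉ M ∧ v ∈ G.ends e) S e).card ≤ 2 := by
      intro e _
      have h5 : Finset.bipartiteBelow (fun v e => e ∉ M ∧ v ∈ G.ends e) S e ⊆ {a e, b e} := by
        intro v hv
        rw [Finset.mem_bipartiteBelow] at hv
        rcases (hmem e v).1 hv.2.2 with h | h <;> simp [h]
      exact (Finset.card_le_card h5).trans Finset.card_le_two
    have h5 := Finset.sum_le_card_nsmul _ _ 2 h4
    rw [← h2, smul_eq_mul] at h5
    omega
  have hf1 : ∀ v, f v ∉ M := fun v => (Finset.mem_filter.1 (hfv v)).2.1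
  have hf2 : ∀ v, v ∈ G.ends (f v) := fun v => (Finset.mem_filter.1 (hfv v)).2.2
  let nx : V → V := fun v => oth v (f v)
  have hef : ∀ v, G.ends (f v) = s(v, nx v) := fun v => hoth v (f v) (hf2 v)
  have hnxne : ∀ v, nx v ≠ v := fun v => hothne v (f v) (hf2 v)
  have hnxinj : Function.Injective nx := by
    intro u v huv
    by_contra hne'
    have h1 : f u ≠ f v := fun h => hne' (hfinj h)
    have h2 : f (nx u) ≠ f u := fun h => hnxne u (hfinj h)
    have h3 : f (nx u) ≠ f v := fun h => by
      apply hnxne v; rw [← huv]; exact hfinj h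
    have h4 : ({f u, f v, f (nx u)} : Finset E) ⊆
        univ.filter (fun e => e ∉ M ∧ nx u ∈ G.ends e) := by
      intro e he
      simp only [Finset.mem_insert, Finset.mem_singleton] at he
      rw [Finset.mem_filter]
      refine ⟨Finset.mem_univ _, ?_⟩
      rcases he with rfl | rfl | rfl
      · exact ⟨hf1 u, by rw [hef]; exact Sym2.mem_mk_right _ _⟩
      · exact ⟨hf1 v, by rw [hef, ← huv]; exact Sym2.mem_mk_right _ _⟩
      · exact ⟨hf1 _, hf2 _⟩
    have h5 := Finset.card_le_card h4
    rw [hnonM, Finset.card_insert_of_notMem, Finset.card_pair h3.symm] at h5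
    · omega
    · simp only [Finset.mem_insert, Finset.mem_singleton]
      push Not
      exact ⟨h1, h2.symm⟩
  let π : Equiv.Perm V := Equiv.ofBijective nx (Finite.injective_iff_bijective.1 hnxinj)
  have hπv : ∀ v, π v = nx v := fun v => rfl
  have hcoverF : ∀ e, e ∉ M → ∃ v, e = f v := by
    have h1 : 2 * (univ.filter (fun e => e ∉ M)).card = 2 * (univ : Finset V).card := by
      have h2 := Finset.sum_card_bipartiteAbove_eq_sum_card_bipartiteBelow
        (s := (univ : Finset V)) (t := univ.filter (fun e => e ∉ M)) (fun v e => v ∈ G.ends e)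
      have h3 : ∀ v ∈ (univ : Finset V), (Finset.bipartiteAbove (fun v e => v ∈ G.ends e)
          (univ.filter (fun e => e ∉ M)) v).card = 2 := by
        intro v _
        rw [← hnonM v]
        congr 1
        ext e
        simp [Finset.mem_bipartiteAbove]
      have h4 : ∀ e ∈ univ.filter (fun e => e ∉ M),
          (Finset.bipartiteBelow (fun v e => v ∈ G.ends e) (univ : Finset V) e).card = 2 := by
        intro e _
        have h5 : Finset.bipartiteBelow (fun v e => v ∈ G.ends e) (univ : Finset V) e =
            {a e, b e} := by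
          ext v
          rw [Finset.mem_bipartiteBelow, hmem]
          simp
        rw [h5, Finset.card_pair (hab e)]
      rw [Finset.sum_congr rfl h3, Finset.sum_congr rfl h4, Finset.sum_const, Finset.sum_const,
        smul_eq_mul, smul_eq_mul] at h2
      omega
    have h2 : (univ : Finset V).image f = univ.filter (fun e => e ∉ M) := by
      apply Finset.eq_of_subset_of_card_le
      · intro e he
        obtain ⟨v, _, rfl⟩ := Finset.mem_image.1 he
        exact Finset.mem_filter.2 ⟨Finset.mem_univ _, hf1 v⟩
      · rw [Finset.card_image_of_injective _ hfinj]; omega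
    intro e he
    have h3 : e ∈ (univ : Finset V).image f := by
      rw [h2]; exact Finset.mem_filter.2 ⟨Finset.mem_univ _, he⟩
    obtain ⟨v, _, hv⟩ := Finset.mem_image.1 h3
    exact ⟨v, hv.symm⟩
  have hcoverM : ∀ e, e ∈ M → ∃ v, e = g v := by
    intro e he
    exact ⟨a e, hguniq (a e) e he (by rw [hmem]; exact Or.inl rfl)⟩
  have hmodel : IsModel G π m f g :=
    { hm := hm
      hne := hne
      hπ := hnxne
      ef := hef
      eg := heg
      finj := hfinj
      geq := by
        intro u v
        constructor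
        · intro h
          have h1 : u ∈ G.ends (g v) := by rw [← h]; exact hgv u
          rw [heg] at h1
          exact Sym2.mem_iff.1 h1
        · rintro (rfl | rfl)
          · rfl
          · exact hgm v
      fg := by
        intro u v h
        exact hf1 u (h ▸ hgM v)
      cover := by
        intro e
        by_cases h : e ∈ M
        · exact Or.inr (hcoverM e h)
        · exact Or.inl (hcoverF e h) }
  -- the flow on the contracted graph
  let q : V → Quotient (Equiv.Perm.SameCycle.setoid π) := fun v => Quotient.mk _ v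
  have hqF : ∀ e, e ∉ M → q (a e) = q (b e) := by
    intro e he
    obtain ⟨v, rfl⟩ := hcoverF e he
    have h1 : q v = q (nx v) := by
      apply Quotient.sound
      show π.SameCycle v (nx v)
      rw [← hπv, Equiv.Perm.sameCycle_apply_right]
    have h2 := hef v
    rw [hends] at h2
    rcases Sym2.eq_iff.1 h2 with ⟨h3, h4⟩ | ⟨h3, h4⟩
    · rw [h3, h4]; exact h1
    · rw [h3, h4]; exact h1.symm
  obtain ⟨ψ₁, ψ₂, hnz, hfl1, hfl2⟩ := exists_flow _ (fun e => q (a e)) (fun e => q (b e)) rfl (by
    intro Y
    have h1 : cn (fun e => q (a e)) (fun e => q (b e)) univ Y =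
        cn a b univ (univ.filter (fun v => q v ∈ Y)) := by
      unfold cn
      congr 1
      apply Finset.filter_congr
      intro e _
      simp
    have h2 : cn a b univ (univ.filter (fun v => q v ∈ Y)) =
        cn a b M (univ.filter (fun v => q v ∈ Y)) := by
      unfold cn
      congr 1
      ext e
      constructor
      · intro h
        have h3 := (Finset.mem_filter.1 h).2
        refine Finset.mem_filter.2 ⟨?_, h3⟩
        by_contra h4
        apply h3
        have h5 := hqF e h4
        simp only [Finset.mem_filter, Finset.mem_univ, true_and, h5]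
      · intro h
        exact Finset.mem_filter.2 ⟨Finset.mem_univ _, (Finset.mem_filter.1 h).2⟩
    rw [h1]
    refine ⟨hb _, ?_⟩
    intro h3
    have h4 := hM _ h3
    rw [← h2, h3] at h4
    omega)
  have hbal : ∀ ψ : E → F2, IsFlow (fun e => q (a e)) (fun e => q (b e)) ψ →
      Bal π (fun v => ψ (g v)) := by
    intro ψ hψ c hcinv
    have h1 := hψ (fun κ => c (Quotient.out κ))
    have h2 : ∀ v, c (Quotient.out (q v)) = c v := by
      intro v
      have h3 : π.SameCycle (Quotient.out (q v)) v := Quotient.exact (Quotient.out_eq (q v))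
      exact (const_cycle hcinv h3).symm
    simp only [h2] at h1
    refine Eq.trans ?_ h1
    rw [← Finset.sum_fiberwise (s := (univ : Finset V)) (g := g)]
    apply Finset.sum_congr rfl
    intro e _
    by_cases he : e ∈ M
    · have h3 : univ.filter (fun v => g v = e) = {a e, b e} := by
        ext v
        rw [Finset.mem_filter, Finset.mem_insert, Finset.mem_singleton, ← hmem]
        constructor
        · rintro ⟨_, rfl⟩; exact hgv v
        · intro hv; exact ⟨Finset.mem_univ _, (hguniq v e he hv).symm⟩
      have h4 : ∀ v ∈ univ.filter (fun v => g v = e), c v * ψ (g v) = c v * ψ e := by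
        intro v hv
        rw [(Finset.mem_filter.1 hv).2]
      rw [Finset.sum_congr rfl h4, h3, Finset.sum_pair (hab e)]
      ring
    · have h3 : univ.filter (fun v => g v = e) = ∅ := by
        rw [Finset.filter_eq_empty_iff]
        intro v _ hv
        exact he (hv ▸ hgM v)
      have h4 : c (a e) = c (b e) := by
        rw [← h2 (a e), ← h2 (b e), hqF e he]
      rw [h3, Finset.sum_empty, h4, f2_add_self, mul_zero]
  exact ⟨π, m, f, g, fun v => ψ₁ (g v), fun v => ψ₂ (g v), hmodel,
    ⟨fun v => hnz (g v), fun v => by beta_reduce; rw [hgm], fun v => by beta_reduce; rw [hgm],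
      hbal ψ₁ hfl1, hbal ψ₂ hfl2⟩⟩

end Pool.Agent.H166R2.Kotzig
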