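import Pool.Agent.H166R2.Kotzig.Model

set_option autoImplicit false

/-!
Finite table: colour triples on the edges of the 2-factor and the vertex condition.
-/

namespace Pool.Agent.H166R2.Kotzig

open Pool.Agent.Helper879.ECD

/-- the colour of a nonzero element of the Klein four group -/
def enc (c : F2 × F2) : Fin 5 :=
  if c = (1, 0) then 2 else if c = (0, 1) then 3 else if c = (1, 1) then 4 else 0

/-- colours of the three copies of a matching edge with flow value `c` -/
def mst (c : F2 × F2) : Fin 3 → Fin 5 := ![0, 1, enc c]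

/-- colours of the three copies of an edge of the 2-factor at a nonzero position -/
def nz (t : Fin 3) (c : F2 × F2) : Fin 3 → Fin 5 :=
  if t = 0 then ![enc c, 0, 0] else if t = 1 then ![1, enc c, 1] else ![enc c, enc c, enc c]

/-- a nonzero element different from `c` -/
def oth (c : F2 × F2) : F2 × F2 := if c = (1, 0) then (0, 1) else (1, 0)

def nxt (c d : F2 × F2) : F2 × F2 := if d = c then oth c else d

/-- colours of the three copies of an edge of the 2-factor at position zero, which is entered from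
position `c` in type `t` and left to position `d` -/
def zr (t : Fin 3) (c d : F2 × F2) : Fin 3 → Fin 5 :=
  if t = 1 then ![enc c, enc (nxt c d), enc (c + nxt c d)]
  else ![enc (nxt c d), enc c, enc (c + nxt c d)]

/-- the colours of the triangle edges -/
def pick (x y z : Fin 5) (r s : List (Fin 5)) : Fin 5 :=
  if x ∈ r ∧ x ∈ s then (if y ∈ r ∧ y ∈ s then z else y) else x

def tf (e e' m : Fin 3 → Fin 5) : Fin 3 → Fin 5 :=
  ![pick (e 0) (e' 0) (m 0) [e 1, e' 1, m 1] [e 2, e' 2, m 2],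
    pick (e 1) (e' 1) (m 1) [e 0, e' 0, m 0] [e 2, e' 2, m 2],
    pick (e 2) (e' 2) (m 2) [e 0, e' 0, m 0] [e 1, e' 1, m 1]]

/-- the vertex condition -/
def Ok (e e' m T : Fin 3 → Fin 5) : Prop :=
  List.Nodup [e 0, e' 0, m 0, T 1, T 2] ∧ List.Nodup [e 1, e' 1, m 1, T 0, T 2] ∧
    List.Nodup [e 2, e' 2, m 2, T 0, T 1]

instance (e e' m T : Fin 3 → Fin 5) : Decidable (Ok e e' m T) := by
  unfold Ok; infer_instance

def VOK (e e' m : Fin 3 → Fin 5) : Prop := ∃ T, Ok e e' m T

lemma ok_nz_nz : ∀ p q : F2 × F2, p ≠ 0 → q ≠ 0 → p ≠ q → ∀ t u : Fin 3,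
    ¬ (t = 0 ∧ u = 0) → ¬ (t = 1 ∧ u = 1) →
    Ok (nz t p) (nz u q) (mst (p + q)) (tf (nz t p) (nz u q) (mst (p + q))) := by
  decide +kernel

lemma ok_nz_zr : ∀ p q : F2 × F2, p ≠ 0 → q ≠ 0 → ∀ t : Fin 3, t ≠ 2 →
    Ok (nz t p) (zr t p q) (mst p) (tf (nz t p) (zr t p q) (mst p)) := by
  decide +kernel

lemma ok_zr_nz : ∀ p q : F2 × F2, p ≠ 0 → q ≠ 0 → ∀ t u : Fin 3, t ≠ 2 → u ≠ 2 →
    (p = q → u = t) → (p ≠ q → u ≠ t) →
    Ok (zr t p q) (nz u q) (mst q) (tf (zr t p q) (nz u q) (mst q)) := by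
  decide +kernel

end Pool.Agent.H166R2.Kotzig
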